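import Pool.Agent.Results.MP_042ec1_co.S123Bounded
import Pool.Agent.Results.MP_042ec1_co.BoundedCw

/-!
# MP_43eff6_co: `(K₃, P₁ + S₁,₁,₃)`-free atoms and `(K₃, S₁,₂,₃)`-free atoms have bounded
clique-width
-/

namespace Pool.Agent.Results.MP_43eff6_co.AtomsBounded

open SimpleGraph Pool.Agent.Helper856.Cw Pool.Agent.Helper856.Lcw Pool.Agent.H333R2.St

/-- A connected graph with no (possibly empty) clique cut-set. -/
def IsAtom {V : Type} (G : SimpleGraph V) : Prop :=
  G.Connected ∧ ∀ K : Set V, G.IsClique K → (G.induce Kᶜ).Preconnected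

/-- For both `H₂ = P₁ + S₁,₁,₃` and `H₂ = S₁,₂,₃` there is a constant `c` such that every finite
`(K₃, H₂)`-free atom has clique-width at most `c` (and the minimum in the definition of
clique-width is attained). -/
theorem result :
    (∃ c : ℕ, ∀ (V : Type) [Finite V] (G : SimpleGraph V), IsAtom G →
      G.CliqueFree 3 → ¬ P1_S113.IsIndContained G →
        CwLE G (cliqueWidth G) ∧ cliqueWidth G ≤ c) ∧
    (∃ c : ℕ, ∀ (V : Type) [Finite V] (G : SimpleGraph V), IsAtom G →
      G.CliqueFree 3 → ¬ S123.IsIndContained G →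
        CwLE G (cliqueWidth G) ∧ cliqueWidth G ≤ c) := by
  obtain ⟨c, hc⟩ := MP_042ec1_co.BoundedCw.result
  obtain ⟨d, hd⟩ := MP_042ec1_co.S123Bounded.result
  refine ⟨⟨c, fun V _ G hA h3 hF => ?_⟩, ⟨d, fun V _ G hA h3 hF => ?_⟩⟩
  · have := hA.1.nonempty
    exact ⟨MP_042ec1_co.BoundedCw.attained G, (hc V G h3 hF).1⟩
  · have := hA.1.nonempty
    exact ⟨MP_042ec1_co.BoundedCw.attained G, hd V G h3 hF⟩

end Pool.Agent.Results.MP_43eff6_co.AtomsBounded
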